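import Mathlib
import Pool.Agent.H116.Ibn

/-!
# `i_bn(G) ≤ i_h(G)` for every graph
-/

namespace Pool.Agent.Results.MP_2a7bed_co.IbnLeIh

open SimpleGraph Finset Pool.Agent.H116.Ibn

section connected

variable {V : Type} [Fintype V] {G : SimpleGraph V}

theorem maxH_exists [Nontrivial V] (hc : G.Connected) : ∃ f : V → ℕ, MaxH G f := by
  classical
  obtain ⟨c⟩ := hc.nonempty
  let f : V → ℕ := fun v => if v = c then ecc G c else 0
  have hfc : ∀ v, 0 < f v → v = c := by
    intro v hv
    by_contra h
    simp [f, h] at hv
  refine ⟨f, ?_, ?_, ?_⟩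
  · rw [isBroadcast_iff]
    intro v
    by_cases h : v = c
    · subst h; simp [f]
    · simp [f, h]
  · intro u v hu huv hh
    exact huv ((hfc u hu).trans (hfc v hh.1).symm)
  · intro g hg hfg hne hgi
    rw [isBroadcast_iff] at hg
    obtain ⟨x, hx⟩ : ∃ x, g x ≠ f x := by
      by_contra hall
      push Not at hall
      exact hne (funext hall)
    have hlt : f x < g x := lt_of_le_of_ne (hfg x) (Ne.symm hx)
    have hgc : f c ≤ g c := hfg c
    have hfcc : f c = ecc G c := by simp [f]
    have hxc : x ≠ c := by
      rintro rfl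
      have := hg x
      omega
    have hpos := ecc_pos hc c
    exact hgi x c (by omega) hxc ⟨by omega, by have := dist_le_ecc (G := G) x c; omega⟩

theorem maxH_cover [Nontrivial V] (hc : G.Connected) {f : V → ℕ} (hf : MaxH G f) :
    ∀ x, ∃ v, 0 < f v ∧ G.dist x v ≤ f v := by
  classical
  intro x
  by_contra hno
  push Not at hno
  have hfx : f x = 0 := by
    by_contra h
    have h1 := hno x (Nat.pos_of_ne_zero h)
    rw [SimpleGraph.dist_self] at h1
    omega
  have hb := (isBroadcast_iff f).1 hf.1
  let g : V → ℕ := Function.update f x 1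
  have hgx : g x = 1 := by simp [g]
  have hgy : ∀ y, y ≠ x → g y = f y := by intro y hy; simp [g, hy]
  apply hf.2.2 g
  · rw [isBroadcast_iff]
    intro v
    by_cases h : v = x
    · subst h
      rw [hgx]
      exact ecc_pos hc v
    · rw [hgy v h]; exact hb v
  · intro v
    show f v ≤ g v
    by_cases h : v = x
    · subst h; omega
    · rw [hgy v h]
  · intro h
    have := congrFun h x
    omega
  · intro u v hu huv hh
    obtain ⟨h1, h2⟩ := hh
    by_cases hvx : v = x
    · subst hvx
      rw [hgx] at h2
      rw [hgy u huv] at hu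
      have h3 := hno u hu
      rw [G.dist_comm] at h3
      omega
    · rw [hgy v hvx] at h1 h2
      by_cases hux : u = x
      · subst hux
        have := hno v h1
        omega
      · rw [hgy u hux] at hu
        exact hf.2.1 u v hu huv ⟨h1, h2⟩

theorem maxH_partner [Nontrivial V] {f : V → ℕ} (hf : MaxH G f) :
    ∀ v, 0 < f v → (∀ u, 0 < f u → u = v) ∨
      ∃ u, 0 < f u ∧ u ≠ v ∧ G.dist u v ≤ f u + f v := by
  classical
  intro v hv
  have hb := (isBroadcast_iff f).1 hf.1
  by_cases he : f v = ecc G v
  · left
    intro u hu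
    by_contra huv
    apply hf.2.1 u v hu huv
    exact ⟨hv, by rw [he]; exact dist_le_ecc u v⟩
  · right
    let g : V → ℕ := Function.update f v (f v + 1)
    have hgv : g v = f v + 1 := by simp [g]
    have hgy : ∀ y, y ≠ v → g y = f y := by intro y hy; simp [g, hy]
    have hnot := hf.2.2 g (by
      rw [isBroadcast_iff]
      intro w
      by_cases h : w = v
      · subst h
        have := hb w
        omega
      · rw [hgy w h]; exact hb w) (by
      intro w
      show f w ≤ g w
      by_cases h : w = v
      · subst h; omega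
      · rw [hgy w h]) (by
      intro h
      have := congrFun h v
      omega)
    unfold HIndep at hnot
    push Not at hnot
    obtain ⟨a, b, ha, hab, h1, h2⟩ := hnot
    by_cases hbv : b = v
    · subst hbv
      rw [hgy a hab] at ha
      exact ⟨a, ha, hab, by omega⟩
    · exfalso
      rw [hgy b hbv] at h1 h2
      have ha' : 0 < f a := by
        by_cases h : a = v
        · rw [h]; exact hv
        · rw [hgy a h] at ha; exact ha
      exact hf.2.1 a b ha' hab ⟨h1, h2⟩

/-- The connected case. -/
theorem ibn_le_ih (hc : G.Connected) : ibn G ≤ ih G := by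
  classical
  have hne : Nonempty V := hc.nonempty
  rcases subsingleton_or_nontrivial V with hs | hnt
  · -- one vertex
    obtain ⟨v0⟩ := hne
    have hbr : IsBroadcast G (fun _ : V => 1) :=
      ⟨fun h => absurd hs (not_subsingleton_iff_nontrivial.2 h), fun _ _ => rfl⟩
    have huniq : ∀ g : V → ℕ, IsBroadcast G g → g = fun _ => 1 :=
      fun g hg => funext fun v => hg.2 hs v
    have h1 : MaxBn G (fun _ : V => 1) := by
      refine ⟨hbr, ?_, fun g hg _ hne => absurd (huniq g hg) hne⟩
      rintro x ⟨u, v, huv, _⟩
      exact absurd (Subsingleton.elim u v) huv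
    have h2 : MaxH G (fun _ : V => 1) := by
      refine ⟨hbr, ?_, fun g hg _ hne => absurd (huniq g hg) hne⟩
      intro u v _ huv
      exact absurd (Subsingleton.elim u v) huv
    have h3 : ibn G ≤ cost (fun _ : V => 1) := Nat.sInf_le ⟨_, h1, rfl⟩
    have hset : {c | ∃ f : V → ℕ, MaxH G f ∧ cost f = c}.Nonempty := ⟨_, _, h2, rfl⟩
    obtain ⟨f, hf, hcost⟩ := Nat.sInf_mem hset
    unfold ih
    rw [← hcost, huniq f hf.1]
    exact h3
  · have hset : {c | ∃ f : V → ℕ, MaxH G f ∧ cost f = c}.Nonempty := by
      obtain ⟨f, hf⟩ := maxH_exists hc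
      exact ⟨_, f, hf, rfl⟩
    obtain ⟨f, hf, hcost⟩ := Nat.sInf_mem hset
    unfold ih
    rw [← hcost]
    exact merging G f hc (maxH_cover hc hf) (maxH_partner hf)

end connected

/-- `i_bn` of an arbitrary finite graph: a broadcast is a union of broadcasts on the components, so
the parameter is the sum over the components. -/
noncomputable def ibnTotal {V : Type} [Finite V] (G : SimpleGraph V) : ℕ := by
  classical
  exact
    letI : Fintype G.ConnectedComponent := Fintype.ofFinite _
    ∑ C : G.ConnectedComponent, @ibn C (Fintype.ofFinite C) C.toSimpleGraph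

/-- `i_h` of an arbitrary finite graph: the sum over the components. -/
noncomputable def ihTotal {V : Type} [Finite V] (G : SimpleGraph V) : ℕ := by
  classical
  exact
    letI : Fintype G.ConnectedComponent := Fintype.ofFinite _
    ∑ C : G.ConnectedComponent, @ih C (Fintype.ofFinite C) C.toSimpleGraph

/-- **Main result.**  `i_bn(G) ≤ i_h(G)` for every finite connected graph, and hence (summing over
components) for every finite graph. -/
theorem result :
    (∀ (V : Type) [Fintype V] (G : SimpleGraph V), G.Connected → ibn G ≤ ih G) ∧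
    (∀ (V : Type) [Finite V] (G : SimpleGraph V), ibnTotal G ≤ ihTotal G) := by
  refine ⟨fun V _ G hc => ibn_le_ih hc, ?_⟩
  intro V _ G
  unfold ibnTotal ihTotal
  apply Finset.sum_le_sum
  intro C _
  exact @ibn_le_ih C (Fintype.ofFinite C) C.toSimpleGraph C.connected_toSimpleGraph

end Pool.Agent.Results.MP_2a7bed_co.IbnLeIh
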